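import Pool.Agent.Q45.ND.Stm

/-!
# An invariant perfect form reduces to the dot product
-/

set_option autoImplicit false

open Module

namespace Pool.Agent.Q211.ND.DotJob

open Pool.Agent.Q45.OI (InO)

/-- A permutation which moves one pair of distinct points to another one. -/
theorem exists_perm {Ω : Type} [DecidableEq Ω] {i j k l : Ω} (hij : i ≠ j) (hkl : k ≠ l) :
    ∃ s : Equiv.Perm Ω, s i = k ∧ s j = l := by
  refine ⟨Equiv.swap (Equiv.swap i k j) l * Equiv.swap i k, ?_, ?_⟩
  · rw [Equiv.Perm.mul_apply, Equiv.swap_apply_left]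
    refine Equiv.swap_apply_of_ne_of_ne ?_ hkl
    intro h
    have h2 : Equiv.swap i k i = Equiv.swap i k j := by rw [Equiv.swap_apply_left]; exact h
    exact hij ((Equiv.swap i k).injective h2)
  · rw [Equiv.Perm.mul_apply, Equiv.swap_apply_left]

/-- A matrix which is invariant under all the permutations. -/
theorem const_of_inv {Ω : Type} [DecidableEq Ω] (m : Ω → Ω → ZMod 2)
    (h : ∀ (s : Equiv.Perm Ω) i j, m (s i) (s j) = m i j) {i₀ j₀ : Ω} (h0 : i₀ ≠ j₀) :
    ∀ i j, m i j = if i = j then m i₀ i₀ else m i₀ j₀ := by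
  intro i j
  split_ifs with hij
  · subst hij
    have := h (Equiv.swap i₀ i) i₀ i₀
    rwa [Equiv.swap_apply_left] at this
  · obtain ⟨s, hs1, hs2⟩ := exists_perm h0 hij
    have := h s i₀ j₀
    rwa [hs1, hs2] at this

/-- The value of the form with given constants. -/
theorem sum_eq {Ω : Type} [Fintype Ω] [DecidableEq Ω] (a c : ZMod 2) (u v : Ω → ZMod 2) :
    ∑ i, ∑ j, u i * (v j * (if i = j then a else c)) =
      (a - c) * ∑ i, u i * v i + c * ((∑ i, u i) * ∑ j, v j) := by
  have h1 : ∀ i j, u i * (v j * (if i = j then a else c)) =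
      (a - c) * (if i = j then u i * v j else 0) + c * (u i * v j) := by
    intro i j
    split_ifs with h
    · ring
    · ring
  have h3 : (∑ i, u i) * ∑ j, v j = ∑ i, ∑ j, u i * v j := Finset.sum_mul_sum _ _ _ _
  rw [h3, Finset.mul_sum, Finset.mul_sum, ← Finset.sum_add_distrib]
  refine Finset.sum_congr rfl fun i _ => ?_
  rw [Finset.sum_congr rfl (fun j _ => h1 i j), Finset.sum_add_distrib, ← Finset.mul_sum,
    ← Finset.mul_sum, Finset.sum_ite_eq]
  simp

theorem main : Pool.Agent.Q45.ND.Dot := by
  intro Ω _ _ hodd hcard M _ _ κ hsurj hker H B hsymm hperf hinv hperm x y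
  have h2 : (PadicInt.toZMod (2 : ℤ_[2]) : ZMod 2) = 0 := by
    rw [map_ofNat]; rfl
  have hk_l : ∀ x x' y, κ x = κ x' →
      (PadicInt.toZMod (B x y) : ZMod 2) = PadicInt.toZMod (B x' y) := by
    intro x x' y h
    obtain ⟨m', hm'⟩ := (hker (x - x')).1 (by rw [map_sub, h, sub_self])
    have hx : x = x' + (2 : ℤ_[2]) • m' := by rw [← hm']; abel
    rw [hx, map_add, LinearMap.add_apply, map_smul, LinearMap.smul_apply, map_add, smul_eq_mul,
      map_mul, h2, zero_mul, add_zero]
  have hk_r : ∀ x y y', κ y = κ y' →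
      (PadicInt.toZMod (B x y) : ZMod 2) = PadicInt.toZMod (B x y') := by
    intro x y y' h
    rw [hsymm x y, hsymm x y']
    exact hk_l _ _ _ h
  choose σ hσ using hsurj
  set f : (Ω → ZMod 2) → (Ω → ZMod 2) → ZMod 2 :=
    fun u v => PadicInt.toZMod (B (σ u) (σ v)) with hfdef
  have hf : ∀ x y, (PadicInt.toZMod (B x y) : ZMod 2) = f (κ x) (κ y) := by
    intro x y
    rw [hk_l x (σ (κ x)) y (hσ _).symm, hk_r _ y (σ (κ y)) (hσ _).symm]
  have hf' : ∀ x y u v, κ x = u → κ y = v → f u v = PadicInt.toZMod (B x y) := by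
    intro x y u v hx hy
    rw [hf, hx, hy]
  have fadd_l : ∀ u u' v, f (u + u') v = f u v + f u' v := by
    intro u u' v
    rw [hf' (σ u + σ u') (σ v) (u + u') v (by rw [map_add, hσ, hσ]) (hσ _), map_add,
      LinearMap.add_apply, map_add]
  have fadd_r : ∀ u v v', f u (v + v') = f u v + f u v' := by
    intro u v v'
    rw [hf' (σ u) (σ v + σ v') u (v + v') (hσ _) (by rw [map_add, hσ, hσ]), map_add, map_add]
  have fzero_l : ∀ v, f 0 v = 0 := by
    intro v
    have := fadd_l 0 0 v
    rw [add_zero] at this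
    simpa using this
  have fzero_r : ∀ u, f u 0 = 0 := by
    intro u
    have := fadd_r u 0 0
    rw [add_zero] at this
    simpa using this
  have hz : ∀ c : ZMod 2, c = 0 ∨ c = 1 := by decide
  let F : (Ω → ZMod 2) →ₗ[ZMod 2] (Ω → ZMod 2) →ₗ[ZMod 2] ZMod 2 :=
    LinearMap.mk₂ (ZMod 2) f fadd_l
      (by
        intro c u v
        rcases hz c with h | h
        · rw [h, zero_smul, zero_smul, fzero_l]
        · rw [h, one_smul, one_smul])
      fadd_r
      (by
        intro c u v
        rcases hz c with h | h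
        · rw [h, zero_smul, zero_smul, fzero_r]
        · rw [h, one_smul, one_smul])
  have hF : ∀ u v, F u v = f u v := fun u v => rfl
  set m : Ω → Ω → ZMod 2 := fun i j => f (Pi.single i 1) (Pi.single j 1) with hm
  have hsum : ∀ u v, f u v = ∑ i, ∑ j, u i * (v j * m i j) := by
    intro u v
    have hu : u = ∑ i, u i • (Pi.single i (1 : ZMod 2) : Ω → ZMod 2) := by
      ext k
      rw [Finset.sum_apply]
      simp [Pi.single_apply]
    have hv : v = ∑ j, v j • (Pi.single j (1 : ZMod 2) : Ω → ZMod 2) := by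
      ext k
      rw [Finset.sum_apply]
      simp [Pi.single_apply]
    conv_lhs => rw [hu, hv]
    rw [← hF]
    have e1 : F (∑ i, u i • (Pi.single i (1 : ZMod 2) : Ω → ZMod 2)) =
        ∑ i, u i • F (Pi.single i 1) := by
      rw [map_sum]
      exact Finset.sum_congr rfl fun i _ => map_smul _ _ _
    rw [e1, LinearMap.sum_apply]
    refine Finset.sum_congr rfl fun i _ => ?_
    rw [LinearMap.smul_apply, map_sum, Finset.smul_sum]
    refine Finset.sum_congr rfl fun j _ => ?_
    rw [map_smul, hF]
    rfl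
  have hminv : ∀ (s : Equiv.Perm Ω) i j, m (s i) (s j) = m i j := by
    intro s i j
    obtain ⟨g, hg, hgs⟩ := hperm s
    have key : ∀ i, κ ((g : End ℤ_[2] M) (σ (Pi.single i 1))) = Pi.single (s i) 1 := by
      intro i
      ext k
      have h := hgs (σ (Pi.single i 1)) (s.symm k)
      rw [Equiv.apply_symm_apply] at h
      rw [h, hσ]
      by_cases hk : k = s i
      · subst hk
        simp
      · have hk' : s.symm k ≠ i := by
          intro h'
          apply hk
          rw [← h', Equiv.apply_symm_apply]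
        rw [Pi.single_eq_of_ne hk', Pi.single_eq_of_ne hk]
    show f _ _ = f _ _
    rw [hf' _ _ _ _ (key i) (key j)]
    exact congrArg _ (hinv g hg _ _)
  obtain ⟨i₀, j₀, h0⟩ := Fintype.exists_pair_of_one_lt_card (show 1 < Fintype.card Ω by omega)
  have hmc := const_of_inv m hminv h0
  set a := m i₀ i₀ with ha
  set c := m i₀ j₀ with hc
  have hform : ∀ u v, f u v = (a - c) * ∑ i, u i * v i + c * ((∑ i, u i) * ∑ j, v j) := by
    intro u v
    rw [hsum, ← sum_eq]
    refine Finset.sum_congr rfl fun i _ => Finset.sum_congr rfl fun j _ => ?_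
    rw [hmc i j]
  have hrad : ∀ u, (∀ v, f u v = 0) → u = 0 := by
    intro u hu
    have := hperf (σ u) (fun y => by rw [hf, hσ, hu])
    rw [hσ] at this
    exact this
  have hcard1 : ((Fintype.card Ω : ℕ) : ZMod 2) = 1 := by
    obtain ⟨k, hk⟩ := hodd
    rw [hk]
    push_cast
    have : (2 : ZMod 2) = 0 := rfl
    rw [this, zero_mul, zero_add]
  have hne : (fun _ : Ω => (1 : ZMod 2)) ≠ 0 := by
    intro h
    have := congrFun h i₀
    simp at this
  rcases hz c with hc0 | hc1
  · rcases hz a with ha0 | ha1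
    · exfalso
      apply hne
      apply hrad
      intro v
      rw [hform, hc0, ha0]
      simp
    · rw [hf, hform, hc0, ha1]
      simp
  · exfalso
    rcases hz a with ha0 | ha1
    · apply hne
      apply hrad
      intro v
      rw [hform, hc1, ha0]
      simp only [one_mul, Finset.sum_const, Finset.card_univ, nsmul_eq_mul, mul_one]
      rw [hcard1]
      ring
    · have h1 : (Pi.single i₀ (1 : ZMod 2) + Pi.single j₀ 1 : Ω → ZMod 2) = 0 := by
        apply hrad
        intro v
        rw [hform, hc1, ha1]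
        have : ∑ i, (Pi.single i₀ (1 : ZMod 2) + Pi.single j₀ 1 : Ω → ZMod 2) i = 0 := by
          simp only [Pi.add_apply, Finset.sum_add_distrib, Finset.sum_pi_single', Finset.mem_univ,
            if_true]
          rfl
        rw [this]
        ring
      have h3 := congrFun h1 i₀
      rw [Pi.add_apply, Pi.single_eq_same, Pi.single_eq_of_ne h0] at h3
      simp at h3

end Pool.Agent.Q211.ND.DotJob
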